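import Mathlib
import Pool.Agent.W609.CR.All
import Pool.Agent.H248R5.Lin
import Pool.Agent.H248R5.Tay

set_option autoImplicit false

/-!
# Linear systems at points of the plane

This folder is a copy of the parts of `Pool.Agent.W609.CR.Prime` and `Pool.Agent.TH167.SH` on
quadratic transformations which do not depend on the results on few large multiplicities.
-/

namespace Pool.Agent.K7.H33.SH

open MvPolynomial Pool.Agent.W609 Pool.Agent.W609.CR

theorem two_chs (x : ℕ) : 2 * (x + 1).choose 2 = x * (x + 1) := by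
  have h := Nat.triangle_succ x
  rw [Nat.choose_two_right]
  have h1 : (x + 1) * (x + 1 - 1) = (x + 1) * x := by rw [Nat.add_sub_cancel]
  rw [h1]
  have h2 : 2 ∣ (x + 1) * x := by
    rw [mul_comm]
    exact (Nat.even_mul_succ_self x).two_dvd
  rw [Nat.mul_div_cancel' h2]
  ring

theorem vs_eq_forms {K : Type} [Field K] {s : ℕ} (P : Fin s → Fin 2 → K) (w : Fin s → ℕ) (d : ℕ) :
    VS (fun j => aff (P j)) w d = H248R5.forms w P d := by
  ext f
  unfold VS H248R5.forms
  rw [Submodule.mem_inf, Submodule.mem_inf, Submodule.restrictScalars_mem,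
    Submodule.restrictScalars_mem, Ideal.mem_iInf, Ideal.mem_iInf, mem_homogeneousSubmodule]
  constructor
  · rintro ⟨h1, h2⟩
    exact ⟨h1, fun i => (t_link K (P i) (w i) f d h1).1 (h2 i)⟩
  · rintro ⟨h1, h2⟩
    exact ⟨h1, fun i => (t_link K (P i) (w i) f d h1).2 (h2 i)⟩

theorem vs_perm {K : Type} [Field K] {s : ℕ} (v : Fin s → Fin 3 → K) (w : Fin s → ℕ) (d : ℕ)
    (σ : Equiv.Perm (Fin s)) : VS (fun j => v (σ j)) (fun j => w (σ j)) d = VS v w d := by
  unfold VS
  congr 2
  exact Equiv.iInf_comp (g := fun j => RingHom.ker (MvPolynomial.eval (v j)) ^ (w j)) σ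

theorem vs_mono {K : Type} [Field K] {s : ℕ} (v : Fin s → Fin 3 → K) {w w' : Fin s → ℕ} (d : ℕ)
    (h : ∀ j, w' j ≤ w j) : VS v w d ≤ VS v w' d := by
  unfold VS
  refine inf_le_inf_left _ ?_
  intro f hf
  rw [Submodule.restrictScalars_mem, Ideal.mem_iInf] at hf ⊢
  exact fun j => Ideal.pow_le_pow_right (h j) (hf j)

theorem vs_fin {K : Type} [Field K] {s : ℕ} (v : Fin s → Fin 3 → K) (w : Fin s → ℕ) (d : ℕ) :
    Module.Finite K ↥(VS v w d) := by
  have hfin : Module.Finite K ↥(homogeneousSubmodule (Fin 3) K d) :=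
    Module.Finite.iff_fg.2 (homogeneousSubmodule_fg _ _ d)
  exact Submodule.finiteDimensional_of_le inf_le_left

/-- The lower bound. -/
theorem le_dim {K : Type} [Field K] {n : ℕ} (w : Fin n → ℕ) (P : Fin n → Fin 2 → K) (e : ℕ) :
    (e + 2).choose 2 ≤ Module.finrank K ↥(H248R5.forms w P e) + ∑ i, (w i + 1).choose 2 := by
  have hfin : Module.Finite K ↥(homogeneousSubmodule (Fin 3) K e) :=
    Module.Finite.iff_fg.2 (homogeneousSubmodule_fg _ _ e)
  have hq : ∀ i, Module.Finite K (H248R5.Quo K (w i)) := fun i => H248R5.quo_finite (w i)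
  have h1 := LinearMap.finrank_range_add_finrank_ker (H248R5.ev w P e)
  have h2 : Module.finrank K ↥(H248R5.forms w P e) =
      Module.finrank K ↥(LinearMap.ker (H248R5.ev w P e)) := by
    rw [H248R5.forms_eq_map]
    exact LinearEquiv.finrank_eq (Submodule.equivSubtypeMap _ _).symm
  have h3 : Module.finrank K (∀ i, H248R5.Quo K (w i)) ≤ ∑ i, (w i + 1).choose 2 := by
    rw [Module.finrank_pi_fintype]
    exact Finset.sum_le_sum fun i _ => H248R5.finrank_quo_le (w i)
  have h4 := H248R5.le_finrank_forms (K := K) e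
  have h5 := Submodule.finrank_le (LinearMap.range (H248R5.ev w P e))
  omega

theorem exists_sort {s : ℕ} (w : Fin s → ℕ) :
    ∃ σ : Equiv.Perm (Fin s), Antitone (fun j => w (σ j)) := by
  refine ⟨Tuple.sort (fun j => OrderDual.toDual (w j)), ?_⟩
  intro a b hab
  exact Tuple.monotone_sort (fun j => OrderDual.toDual (w j)) hab

theorem deg_pos {K : Type} [Field K] {G : MvPolynomial (Fin 3) K} {e : ℕ}
    (hG : Irreducible G) (hGe : G.IsHomogeneous e) : 0 < e := by
  rcases Nat.eq_zero_or_pos e with rfl | h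
  · exfalso
    have h1 : G.totalDegree = 0 := by
      have := hGe.totalDegree_le
      omega
    rw [MvPolynomial.totalDegree_eq_zero_iff_eq_C] at h1
    rw [h1] at hG
    by_cases h2 : MvPolynomial.coeff 0 G = 0
    · rw [h2, map_zero] at hG
      exact hG.ne_zero rfl
    · exact hG.not_isUnit ((isUnit_iff_ne_zero.2 h2).map MvPolynomial.C)
  · exact h

end Pool.Agent.K7.H33.SH
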