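import Pool.Agent.K7.H33.SH.Rel

set_option autoImplicit false

/-!
# Classes and `(-1)`-curves under the quadratic transformation
-/

namespace Pool.Agent.K7.H33.SH

open MvPolynomial Pool.Agent.W609.CR

/-- The degree of the image of a class. -/
def cd {s : ℕ} (i : Fin 3 → Fin s) (d : ℕ) (w : Fin s → ℕ) : ℕ :=
  2 * d - (w (i 0) + w (i 1) + w (i 2))

/-- The class meets the three lines through the base points nonnegatively. -/
structure PS {s : ℕ} (i : Fin 3 → Fin s) (d : ℕ) (w : Fin s → ℕ) : Prop where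
  p01 : w (i 0) + w (i 1) ≤ d
  p02 : w (i 0) + w (i 2) ≤ d
  p12 : w (i 1) + w (i 2) ≤ d

/-- The change of the degree. -/
def dl {s : ℕ} (i : Fin 3 → Fin s) (d : ℕ) (w : Fin s → ℕ) : ℤ :=
  (d : ℤ) - w (i 0) - w (i 1) - w (i 2)

/-- The indicator of the base points. -/
def ic {s : ℕ} (i : Fin 3 → Fin s) (j : Fin s) : ℤ := if j = i 0 ∨ j = i 1 ∨ j = i 2 then 1 else 0

/-- The intersection number. -/
def ip {s : ℕ} (d : ℕ) (w : Fin s → ℕ) (e : ℕ) (u : Fin s → ℕ) : ℤ :=
  (d : ℤ) * e - ∑ j, (w j : ℤ) * u j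

/-- The intersection number with `-K`. -/
def kk {s : ℕ} (d : ℕ) (w : Fin s → ℕ) : ℤ := 3 * (d : ℤ) - ∑ j, (w j : ℤ)

theorem ne10 {s : ℕ} {i : Fin 3 → Fin s} (hi : Function.Injective i) : i 1 ≠ i 0 :=
  fun h => absurd (hi h) (by decide)

theorem ne20 {s : ℕ} {i : Fin 3 → Fin s} (hi : Function.Injective i) : i 2 ≠ i 0 :=
  fun h => absurd (hi h) (by decide)

theorem ne21 {s : ℕ} {i : Fin 3 → Fin s} (hi : Function.Injective i) : i 2 ≠ i 1 :=
  fun h => absurd (hi h) (by decide)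

theorem cd_cast {s : ℕ} {i : Fin 3 → Fin s} {d : ℕ} {w : Fin s → ℕ} (h : PS i d w) :
    (cd i d w : ℤ) = d + dl i d w := by
  obtain ⟨h1, h2, h3⟩ := h
  unfold cd dl
  omega

theorem wcr_cast {s : ℕ} {i : Fin 3 → Fin s} (hi : Function.Injective i) {d : ℕ} {w : Fin s → ℕ}
    (h : PS i d w) (j : Fin s) : (wcr d i w j : ℤ) = w j + dl i d w * ic i j := by
  obtain ⟨h1, h2, h3⟩ := h
  unfold wcr dl ic
  by_cases c0 : j = i 0
  · subst c0
    rw [if_pos rfl, if_pos (Or.inl rfl)]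
    omega
  by_cases c1 : j = i 1
  · subst c1
    rw [if_neg (ne10 hi), if_pos rfl, if_pos (Or.inr (Or.inl rfl))]
    omega
  by_cases c2 : j = i 2
  · subst c2
    rw [if_neg (ne20 hi), if_neg (ne21 hi), if_pos rfl, if_pos (Or.inr (Or.inr rfl))]
    omega
  · rw [if_neg c0, if_neg c1, if_neg c2, if_neg (by tauto)]
    simp

theorem sum_ic {s : ℕ} {i : Fin 3 → Fin s} (hi : Function.Injective i) (x : Fin s → ℤ) :
    ∑ j, ic i j * x j = x (i 0) + x (i 1) + x (i 2) := by
  classical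
  have h1 : ∀ j, ic i j * x j = (if j = i 0 then x (i 0) else 0) + (if j = i 1 then x (i 1) else 0)
      + (if j = i 2 then x (i 2) else 0) := by
    intro j
    unfold ic
    by_cases c0 : j = i 0
    · subst c0
      rw [if_pos (Or.inl rfl), if_pos rfl, if_neg (ne10 hi).symm, if_neg (ne20 hi).symm]
      ring
    by_cases c1 : j = i 1
    · subst c1
      rw [if_pos (Or.inr (Or.inl rfl)), if_neg (ne10 hi), if_pos rfl, if_neg (ne21 hi).symm]
      ring
    by_cases c2 : j = i 2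
    · subst c2
      rw [if_pos (Or.inr (Or.inr rfl)), if_neg (ne20 hi), if_neg (ne21 hi), if_pos rfl]
      ring
    · rw [if_neg (by tauto), if_neg c0, if_neg c1, if_neg c2]
      ring
  rw [Finset.sum_congr rfl fun j _ => h1 j, Finset.sum_add_distrib, Finset.sum_add_distrib,
    Finset.sum_ite_eq' Finset.univ (i 0), Finset.sum_ite_eq' Finset.univ (i 1),
    Finset.sum_ite_eq' Finset.univ (i 2), if_pos (Finset.mem_univ _), if_pos (Finset.mem_univ _),
    if_pos (Finset.mem_univ _)]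

theorem ic_sq {s : ℕ} (i : Fin 3 → Fin s) (j : Fin s) : ic i j * ic i j = ic i j := by
  unfold ic
  split_ifs <;> norm_num

theorem ic_base {s : ℕ} (i : Fin 3 → Fin s) : ic i (i 0) = 1 ∧ ic i (i 1) = 1 ∧ ic i (i 2) = 1 := by
  unfold ic
  refine ⟨if_pos (Or.inl rfl), if_pos (Or.inr (Or.inl rfl)), if_pos (Or.inr (Or.inr rfl))⟩

theorem ip_cr {s : ℕ} {i : Fin 3 → Fin s} (hi : Function.Injective i) {d e : ℕ}
    {w u : Fin s → ℕ} (h : PS i d w) (h' : PS i e u) :
    ip (cd i d w) (wcr d i w) (cd i e u) (wcr e i u) = ip d w e u := by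
  unfold ip
  rw [cd_cast h, cd_cast h']
  have h1 : ∀ j, (wcr d i w j : ℤ) * (wcr e i u j : ℤ) = (w j : ℤ) * u j +
      (dl i e u * (ic i j * (w j : ℤ)) + (dl i d w * (ic i j * (u j : ℤ)) +
        dl i d w * dl i e u * (ic i j * 1))) := by
    intro j
    rw [wcr_cast hi h, wcr_cast hi h']
    have := ic_sq i j
    linear_combination (dl i d w * dl i e u) * this
  rw [Finset.sum_congr rfl fun j _ => h1 j, Finset.sum_add_distrib, Finset.sum_add_distrib,
    Finset.sum_add_distrib, ← Finset.mul_sum, ← Finset.mul_sum, ← Finset.mul_sum,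
    sum_ic hi (fun j => (w j : ℤ)), sum_ic hi (fun j => (u j : ℤ)), sum_ic hi (fun _ => 1)]
  unfold dl
  ring

theorem kk_cr {s : ℕ} {i : Fin 3 → Fin s} (hi : Function.Injective i) {d : ℕ}
    {w : Fin s → ℕ} (h : PS i d w) : kk (cd i d w) (wcr d i w) = kk d w := by
  unfold kk
  rw [cd_cast h]
  have h1 : ∀ j, (wcr d i w j : ℤ) = (w j : ℤ) + dl i d w * (ic i j * 1) := by
    intro j
    rw [wcr_cast hi h]
    ring
  rw [Finset.sum_congr rfl fun j _ => h1 j, Finset.sum_add_distrib, ← Finset.mul_sum,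
    sum_ic hi (fun _ => 1)]
  ring

theorem PS.cr {s : ℕ} {i : Fin 3 → Fin s} (hi : Function.Injective i) {d : ℕ}
    {w : Fin s → ℕ} (h : PS i d w) : PS i (cd i d w) (wcr d i w) := by
  have h0 := wcr_cast hi h (i 0)
  have h1 := wcr_cast hi h (i 1)
  have h2 := wcr_cast hi h (i 2)
  obtain ⟨b0, b1, b2⟩ := ic_base i
  rw [b0] at h0
  rw [b1] at h1
  rw [b2] at h2
  have h3 := cd_cast h
  unfold dl at *
  obtain ⟨p1, p2, p3⟩ := h
  constructor <;> omega

theorem dl_cr {s : ℕ} {i : Fin 3 → Fin s} (hi : Function.Injective i) {d : ℕ}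
    {w : Fin s → ℕ} (h : PS i d w) : dl i (cd i d w) (wcr d i w) = - dl i d w := by
  have h0 := wcr_cast hi h (i 0)
  have h1 := wcr_cast hi h (i 1)
  have h2 := wcr_cast hi h (i 2)
  obtain ⟨b0, b1, b2⟩ := ic_base i
  rw [b0] at h0
  rw [b1] at h1
  rw [b2] at h2
  have h3 := cd_cast h
  unfold dl at *
  rw [h0, h1, h2, h3]
  ring

theorem cd_cr {s : ℕ} {i : Fin 3 → Fin s} (hi : Function.Injective i) {d : ℕ}
    {w : Fin s → ℕ} (h : PS i d w) : cd i (cd i d w) (wcr d i w) = d := by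
  have h1 := cd_cast (h.cr hi)
  rw [dl_cr hi h, cd_cast h] at h1
  have h2 : ((cd i (cd i d w) (wcr d i w) : ℕ) : ℤ) = (d : ℤ) := by
    rw [h1]
    ring
  exact_mod_cast h2

theorem wcr_cr {s : ℕ} {i : Fin 3 → Fin s} (hi : Function.Injective i) {d : ℕ}
    {w : Fin s → ℕ} (h : PS i d w) : wcr (cd i d w) i (wcr d i w) = w := by
  funext j
  have h1 := wcr_cast hi (h.cr hi) j
  rw [dl_cr hi h, wcr_cast hi h] at h1
  have h2 : ((wcr (cd i d w) i (wcr d i w) j : ℕ) : ℤ) = (w j : ℤ) := by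
    rw [h1]
    ring
  exact_mod_cast h2

/-- The dimensions. -/
theorem CRel.dim {K : Type} [Field K] {s : ℕ} {P P' : Fin s → Fin 2 → K} {i : Fin 3 → Fin s}
    (h : CRel P P' i) {d : ℕ} {w : Fin s → ℕ} (p : PS i d w) :
    Module.finrank K (VS (fun j => aff (P' j)) (wcr d i w) (cd i d w)) =
      Module.finrank K (VS (fun j => aff (P j)) w d) := by
  refine le_antisymm ?_ (h.dim_le p.p01 p.p02 p.p12)
  have p' := p.cr h.inj
  have h1 := h.symm.dim_le p'.p01 p'.p02 p'.p12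
  have h2 : 2 * cd i d w - (wcr d i w (i 0) + wcr d i w (i 1) + wcr d i w (i 2)) = d :=
    cd_cr h.inj p
  rw [wcr_cr h.inj p, h2] at h1
  exact h1

/-- A `(-1)`-curve, given by an irreducible form `C` of degree `e` with multiplicities `u j`. -/
structure Exc {K : Type} [Field K] {s : ℕ} (P : Fin s → Fin 2 → K) (C : MvPolynomial (Fin 3) K)
    (e : ℕ) (u : Fin s → ℕ) : Prop where
  irr : Irreducible C
  hom : C.IsHomogeneous e
  ord : ∀ j, Ord (aff (P j)) (u j) C
  self : e ^ 2 + 1 = ∑ j, u j ^ 2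
  can : 3 * e = ∑ j, u j + 1

theorem self_iff {s : ℕ} {e : ℕ} {u : Fin s → ℕ} : e ^ 2 + 1 = ∑ j, u j ^ 2 ↔ ip e u e u = -1 := by
  unfold ip
  have h1 : (∑ j, (u j : ℤ) * u j) = ((∑ j, u j ^ 2 : ℕ) : ℤ) := by
    push_cast
    exact Finset.sum_congr rfl fun j _ => by ring
  rw [h1]
  constructor
  · intro h
    rw [← h]
    push_cast
    ring
  · intro h
    have h2 : ((∑ j, u j ^ 2 : ℕ) : ℤ) = ((e ^ 2 + 1 : ℕ) : ℤ) := by
      push_cast at *
      linarith
    exact_mod_cast h2.symm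

theorem can_iff {s : ℕ} {e : ℕ} {u : Fin s → ℕ} : 3 * e = ∑ j, u j + 1 ↔ kk e u = 1 := by
  unfold kk
  have h1 : (∑ j, (u j : ℤ)) = ((∑ j, u j : ℕ) : ℤ) := by push_cast; rfl
  rw [h1]
  omega

theorem Exc.cr {K : Type} [Field K] {s : ℕ} {P P' : Fin s → Fin 2 → K} {i : Fin 3 → Fin s}
    (h : CRel P P' i) {C : MvPolynomial (Fin 3) K} {e : ℕ} {u : Fin s → ℕ} (hC : Exc P C e u)
    (p : PS i e u) : ∃ C', Exc P' C' (cd i e u) (wcr e i u) := by
  obtain ⟨C', h1, h2, h3⟩ := h.irr hC.irr hC.hom hC.ord p.p01 p.p02 p.p12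
  refine ⟨C', h1, h2, h3, ?_, ?_⟩
  · rw [self_iff, ip_cr h.inj p p, ← self_iff]
    exact hC.self
  · rw [can_iff, kk_cr h.inj p, ← can_iff]
    exact hC.can

theorem two_of_sum {s : ℕ} {u : Fin s → ℕ} {i j : Fin s} (hij : i ≠ j) (h : ∑ l, u l = 2)
    (hi : 1 ≤ u i) (hj : 1 ≤ u j) : u i = 1 ∧ u j = 1 ∧ ∀ l, l ≠ i → l ≠ j → u l = 0 := by
  classical
  have m2 : j ∈ Finset.univ.erase i := Finset.mem_erase.2 ⟨hij.symm, Finset.mem_univ _⟩
  rw [← Finset.add_sum_erase _ u (Finset.mem_univ i), ← Finset.add_sum_erase _ u m2] at h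
  refine ⟨by omega, by omega, fun l hl1 hl2 => ?_⟩
  have h3 : ∑ l ∈ (Finset.univ.erase i).erase j, u l = 0 := by omega
  rw [Finset.sum_eq_zero_iff] at h3
  exact h3 l (Finset.mem_erase.2 ⟨hl2, Finset.mem_erase.2 ⟨hl1, Finset.mem_univ _⟩⟩)

theorem sum_two {s : ℕ} {i j : Fin s} (hij : i ≠ j) (x : Fin s → ℕ) :
    ∑ l, (if l = i ∨ l = j then 1 else 0) * x l = x i + x j := by
  classical
  have h1 : ∀ l, (if l = i ∨ l = j then 1 else 0) * x l = (if l = i then x i else 0) +
      (if l = j then x j else 0) := by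
    intro l
    by_cases c0 : l = i
    · subst c0
      rw [if_pos (Or.inl rfl), if_pos rfl, if_neg hij]
      ring
    by_cases c1 : l = j
    · subst c1
      rw [if_pos (Or.inr rfl), if_neg c0, if_pos rfl]
      ring
    · rw [if_neg (by tauto), if_neg c0, if_neg c1]
      ring
  rw [Finset.sum_congr rfl fun l _ => h1 l, Finset.sum_add_distrib,
    Finset.sum_ite_eq' Finset.univ i, Finset.sum_ite_eq' Finset.univ j,
    if_pos (Finset.mem_univ _), if_pos (Finset.mem_univ _)]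

theorem ord_pos {K : Type} [Field K] {v : Fin 3 → K} {m : ℕ} {f : MvPolynomial (Fin 3) K}
    (h : Ord v m f) (h1 : Van v 1 f) : 1 ≤ m := by
  by_contra hcon
  have h0 : m = 0 := by omega
  rw [h0] at h
  exact h.2 h1

/-- An irreducible curve meets the line through two points nonnegatively, unless it is this
line. -/
theorem pair_irr {K : Type} [Field K] {s : ℕ} {P : Fin s → Fin 2 → K}
    (hP : Function.Injective P) {C : MvPolynomial (Fin 3) K} {e : ℕ} {u : Fin s → ℕ}
    (hC : Irreducible C) (hCe : C.IsHomogeneous e) (hu : ∀ j, Ord (aff (P j)) (u j) C)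
    {i j : Fin s} (hij : i ≠ j) :
    u i + u j ≤ e ∨ (e = 1 ∧ 1 ≤ u i ∧ 1 ≤ u j) := by
  have hab : P i ≠ P j := fun h => hij (hP h)
  have hl : ∀ l, Van (aff (P l)) (if l = i ∨ l = j then 1 else 0) (ln (P i) (P j)) := by
    intro l
    split_ifs with h
    · rcases h with h | h
      · rw [h]; exact ln_left _ _
      · rw [h]; exact ln_right _ _
    · exact van_zero _ _
  by_cases hd : ln (P i) (P j) ∣ C
  · right
    obtain ⟨H, hH⟩ := hd
    have hu' : IsUnit H := by
      rcases hC.isUnit_or_isUnit hH with h | h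
      · exact absurd h (ln_irr hab).not_isUnit
      · exact h
    have h1 : C.totalDegree = e := hCe.totalDegree hC.ne_zero
    have h2 : H.totalDegree = 0 := (MvPolynomial.isUnit_iff_totalDegree_of_isReduced.1 hu').2
    have h3 : C.totalDegree = 1 := by
      rw [hH, MvPolynomial.totalDegree_mul_of_isDomain (ln_ne hab) hu'.ne_zero, h2,
        (ln_hom _ _).totalDegree (ln_ne hab)]
    refine ⟨by omega, ?_, ?_⟩
    · refine ord_pos (hu i) ?_
      rw [van_one, hH, map_mul, (van_one _ _).1 (ln_left _ _), zero_mul]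
    · refine ord_pos (hu j) ?_
      rw [van_one, hH, map_mul, (van_one _ _).1 (ln_right _ _), zero_mul]
  · left
    have h1 := bez hP (ln_irr hab) (ln_hom _ _) hl hC.ne_zero hCe (fun j => (hu j).1) hd
    rw [sum_two hij] at h1
    omega

theorem Exc.pair {K : Type} [Field K] {s : ℕ} {P : Fin s → Fin 2 → K}
    (hP : Function.Injective P) {C : MvPolynomial (Fin 3) K} {e : ℕ} {u : Fin s → ℕ}
    (hC : Exc P C e u) {i j : Fin s} (hij : i ≠ j) :
    u i + u j ≤ e ∨ (e = 1 ∧ u i = 1 ∧ u j = 1 ∧ ∀ l, l ≠ i → l ≠ j → u l = 0) := by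
  rcases pair_irr hP hC.irr hC.hom hC.ord hij with h | ⟨h1, h2, h3⟩
  · exact Or.inl h
  · right
    have h4 := hC.can
    rw [h1] at h4
    obtain ⟨a1, a2, a3⟩ := two_of_sum hij (by omega) h2 h3
    exact ⟨h1, a1, a2, a3⟩

/-- The line through two points. -/
theorem exc_line {K : Type} [Field K] [CharZero K] {s : ℕ} {P : Fin s → Fin 2 → K}
    (hP : AlgebraicIndependent ℚ (fun ij : Fin s × Fin 2 => P ij.1 ij.2))
    {i j : Fin s} (hij : i ≠ j) :
    Exc P (ln (P i) (P j)) 1 (fun l => if l = i ∨ l = j then 1 else 0) := by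
  classical
  have hab : P i ≠ P j := fun h => hij (inj_of_alg hP h)
  have hs : ∑ l, (if l = i ∨ l = j then 1 else 0) = 2 := by
    have := sum_two hij (fun _ => 1)
    simpa using this
  refine ⟨ln_irr hab, ln_hom _ _, fun l => ?_, ?_, ?_⟩
  · by_cases h : l = i ∨ l = j
    · rw [if_pos h]
      refine ⟨?_, fun h2 => line_mult (ln_ne hab) (ln_hom _ _) h2⟩
      rcases h with h | h
      · rw [h]; exact ln_left _ _
      · rw [h]; exact ln_right _ _
    · rw [if_neg h]
      refine ⟨van_zero _ _, fun h2 => ?_⟩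
      push Not at h
      refine line_two hP (ln_ne hab) (ln_hom _ _) ![i, j, l] ?_ ?_
      · intro a b hab'
        fin_cases a <;> fin_cases b <;>
          simp [hij, hij.symm, h.1, h.2, h.1.symm, h.2.symm] at hab' ⊢
      · intro k
        fin_cases k
        · exact ln_left _ _
        · exact ln_right _ _
        · exact h2
  · have h1 : ∀ l, (if l = i ∨ l = j then 1 else 0) ^ 2 = (if l = i ∨ l = j then 1 else 0) := by
      intro l
      split_ifs <;> norm_num
    rw [Finset.sum_congr rfl fun l _ => h1 l, hs]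
    norm_num
  · rw [hs]

end Pool.Agent.K7.H33.SH
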