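import Pool.Agent.K7.H33.SH.Cls

set_option autoImplicit false

/-!
# Removal of the line through two points
-/

namespace Pool.Agent.K7.H33.SH

open MvPolynomial Pool.Agent.W609.CR

/-- Subtract `k` from two entries. -/
def sb {s : ℕ} (i j : Fin s) (k : ℕ) (w : Fin s → ℕ) : Fin s → ℕ :=
  fun l => if l = i ∨ l = j then w l - k else w l

theorem line_dvd {K : Type} [Field K] {s : ℕ} {P : Fin s → Fin 2 → K}
    (hP : Function.Injective P) {i j : Fin s} (hij : i ≠ j) {w : Fin s → ℕ} {d : ℕ}
    {f : MvPolynomial (Fin 3) K} (hf : f ∈ VS (fun j => aff (P j)) w d) (h : d < w i + w j) :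
    ln (P i) (P j) ∣ f := by
  by_cases hf0 : f = 0
  · rw [hf0]
    exact dvd_zero _
  by_contra hd
  rw [mem_VS] at hf
  have hab : P i ≠ P j := fun h => hij (hP h)
  have hl : ∀ l, Van (aff (P l)) (if l = i ∨ l = j then 1 else 0) (ln (P i) (P j)) := by
    intro l
    split_ifs with h
    · rcases h with h | h
      · rw [h]; exact ln_left _ _
      · rw [h]; exact ln_right _ _
    · exact van_zero _ _
  have h1 := bez hP (ln_irr hab) (ln_hom _ _) hl hf0 hf.1 hf.2 hd
  rw [sum_two hij] at h1
  omega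

/-- Multiplication by an irreducible curve. -/
theorem vs_map {K : Type} [Field K] {s : ℕ} {P : Fin s → Fin 2 → K}
    {C : MvPolynomial (Fin 3) K} {e : ℕ} {u : Fin s → ℕ} (hC0 : C ≠ 0) (hCe : C.IsHomogeneous e)
    (hu : ∀ j, Ord (aff (P j)) (u j) C) {d : ℕ} {w : Fin s → ℕ}
    (hdvd : ∀ f ∈ VS (fun j => aff (P j)) (fun j => w j + u j) (d + e), C ∣ f) :
    VS (fun j => aff (P j)) (fun j => w j + u j) (d + e) =
      Submodule.map (LinearMap.mulLeft K C) (VS (fun j => aff (P j)) w d) := by
  ext f
  rw [Submodule.mem_map]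
  constructor
  · intro hf
    obtain ⟨g, hg⟩ := hdvd f hf
    refine ⟨g, ?_, hg.symm⟩
    rw [mem_VS] at hf ⊢
    by_cases hg0 : g = 0
    · rw [hg0]
      refine ⟨isHomogeneous_zero _ _ _, fun j => ?_⟩
      unfold Van
      exact Submodule.zero_mem _
    have hf0 : f ≠ 0 := by
      rw [hg]
      exact mul_ne_zero hC0 hg0
    constructor
    · have h1 := Pool.Agent.Chud.homog_of_dvd hf.1 hf0 ⟨C, by rw [hg, mul_comm]⟩
      have h2 : f.totalDegree = d + e := hf.1.totalDegree hf0
      rw [hg, MvPolynomial.totalDegree_mul_of_isDomain hC0 hg0, hCe.totalDegree hC0] at h2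
      have h3 : g.totalDegree = d := by omega
      rw [h3] at h1
      exact h1
    · intro j
      refine van_of_mul (hu j) ?_
      rw [← hg, add_comm]
      exact hf.2 j
  · rintro ⟨g, hg, rfl⟩
    rw [mem_VS] at hg ⊢
    rw [LinearMap.mulLeft_apply]
    refine ⟨?_, fun j => ?_⟩
    · rw [add_comm]
      exact hCe.mul hg.1
    · rw [add_comm]
      exact van_mul (hu j).1 (hg.2 j)

theorem vs_finrank {K : Type} [Field K] {s : ℕ} {P : Fin s → Fin 2 → K}
    {C : MvPolynomial (Fin 3) K} {e : ℕ} {u : Fin s → ℕ} (hC0 : C ≠ 0) (hCe : C.IsHomogeneous e)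
    (hu : ∀ j, Ord (aff (P j)) (u j) C) {d : ℕ} {w : Fin s → ℕ}
    (hdvd : ∀ f ∈ VS (fun j => aff (P j)) (fun j => w j + u j) (d + e), C ∣ f) :
    Module.finrank K ↥(VS (fun j => aff (P j)) (fun j => w j + u j) (d + e)) =
      Module.finrank K ↥(VS (fun j => aff (P j)) w d) := by
  rw [vs_map hC0 hCe hu hdvd]
  have hinj : Function.Injective (LinearMap.mulLeft K C) := by
    intro a b hab
    rw [LinearMap.mulLeft_apply, LinearMap.mulLeft_apply] at hab
    exact mul_left_cancel₀ hC0 hab
  exact (LinearEquiv.finrank_eq (Submodule.equivMapOfInjective _ hinj _)).symm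

theorem line_k {K : Type} [Field K] [CharZero K] {s : ℕ} {P : Fin s → Fin 2 → K}
    (hP : AlgebraicIndependent ℚ (fun ij : Fin s × Fin 2 => P ij.1 ij.2))
    {i j : Fin s} (hij : i ≠ j) (k : ℕ) : ∀ (w : Fin s → ℕ) (d : ℕ), k ≤ d → k ≤ w i → k ≤ w j →
      d + k ≤ w i + w j →
      Module.finrank K ↥(VS (fun j => aff (P j)) w d) =
        Module.finrank K ↥(VS (fun j => aff (P j)) (sb i j k w) (d - k)) := by
  induction k with
  | zero =>
    intro w d h1 h2 h3 h4
    have : sb i j 0 w = w := by
      funext l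
      unfold sb
      split_ifs <;> rfl
    rw [this, Nat.sub_zero]
  | succ k ih =>
    intro w d h1 h2 h3 h4
    have hL := exc_line hP hij
    have e1 : (fun l => sb i j 1 w l + if l = i ∨ l = j then 1 else 0) = w := by
      funext l
      unfold sb
      by_cases h : l = i ∨ l = j
      · rw [if_pos h, if_pos h]
        rcases h with h | h
        · rw [h]; omega
        · rw [h]; omega
      · rw [if_neg h, if_neg h]
        omega
    have e2 : d - 1 + 1 = d := by omega
    have h5 : Module.finrank K ↥(VS (fun j => aff (P j)) w d) =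
        Module.finrank K ↥(VS (fun j => aff (P j)) (sb i j 1 w) (d - 1)) := by
      have h6 := vs_finrank (P := P) hL.irr.ne_zero hL.hom hL.ord (d := d - 1) (w := sb i j 1 w) (by
        intro f hf
        rw [e1, e2] at hf
        exact line_dvd (inj_of_alg hP) hij hf (by omega))
      rw [e1, e2] at h6
      exact h6
    have si : sb i j 1 w i = w i - 1 := by
      unfold sb
      rw [if_pos (Or.inl rfl)]
    have sj : sb i j 1 w j = w j - 1 := by
      unfold sb
      rw [if_pos (Or.inr rfl)]
    have h6 := ih (sb i j 1 w) (d - 1) (by omega) (by omega) (by omega) (by omega)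
    rw [h5, h6]
    have h7 : sb i j k (sb i j 1 w) = sb i j (k + 1) w := by
      funext l
      unfold sb
      by_cases h : l = i ∨ l = j
      · rw [if_pos h, if_pos h, if_pos h]
        omega
      · rw [if_neg h, if_neg h, if_neg h]
    rw [h7]
    have h8 : d - 1 - k = d - (k + 1) := by omega
    rw [h8]

end Pool.Agent.K7.H33.SH
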