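import Pool.Agent.K7.H33.SH.Red

set_option autoImplicit false

/-!
# The decomposition of a nonempty linear system
-/

namespace Pool.Agent.K7.H33.SH

open MvPolynomial Pool.Agent.W609 Pool.Agent.W609.CR

/-- One quadratic transformation of numerical classes. -/
def Quad {s : ℕ} (a b : ℕ × (Fin s → ℕ)) : Prop :=
  ∃ i : Fin 3 → Fin s, Function.Injective i ∧ PS i a.1 a.2 ∧ b = (cd i a.1 a.2, wcr a.1 i a.2)

theorem three_sorted {r : ℕ} {v : Fin (r + 4) → ℕ} (hσ : Antitone v)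
    {i j k : Fin (r + 4)} (hij : i ≠ j) (hik : i ≠ k)
    (hjk : j ≠ k) : v i + v j + v k ≤ v 0 + v 1 + v 2 := by
  have n0 : ((0 : Fin (r + 4)) : ℕ) = 0 := rfl
  have n1 : ((1 : Fin (r + 4)) : ℕ) = 1 := Nat.mod_eq_of_lt (show 1 < r + 4 by omega)
  have n2 : ((2 : Fin (r + 4)) : ℕ) = 2 := Nat.mod_eq_of_lt (show 2 < r + 4 by omega)
  have key : ∀ a b c : Fin (r + 4), (a : ℕ) < b → (b : ℕ) < c → v a + v b + v c ≤ v 0 + v 1 + v 2 := by
    intro a b c hab hbc
    have h1 : v a ≤ v 0 := hσ (by rw [Fin.le_def, n0]; omega)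
    have h2 : v b ≤ v 1 := hσ (by rw [Fin.le_def, n1]; omega)
    have h3 : v c ≤ v 2 := hσ (by rw [Fin.le_def, n2]; omega)
    omega
  have e1 : (i : ℕ) ≠ j := fun h => hij (Fin.ext h)
  have e2 : (i : ℕ) ≠ k := fun h => hik (Fin.ext h)
  have e3 : (j : ℕ) ≠ k := fun h => hjk (Fin.ext h)
  rcases Nat.lt_or_gt_of_ne e1 with a1 | a1 <;> rcases Nat.lt_or_gt_of_ne e2 with a2 | a2 <;>
    rcases Nat.lt_or_gt_of_ne e3 with a3 | a3
  · exact key i j k a1 a3
  · have := key i k j a2 a3; omega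
  · omega
  · have := key k i j a2 a1; omega
  · have := key j i k a1 a2; omega
  · omega
  · have := key j k i a3 a2; omega
  · have := key k j i a3 a1; omega

/-- Reduced classes meet curves `C` with `-K C ≥ 0` nonnegatively. -/
theorem red_ip {r : ℕ} {d e : ℕ} {w u : Fin (r + 4) → ℕ} (hred : Reduced d w)
    (hu : ∀ j, u j ≤ e) (hs : ∑ j, u j ≤ 3 * e) : 0 ≤ ip d w e u := by
  classical
  have n0 : ((0 : Fin (r + 4)) : ℕ) = 0 := rfl
  have n1 : ((1 : Fin (r + 4)) : ℕ) = 1 := Nat.mod_eq_of_lt (show 1 < r + 4 by omega)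
  have n2 : ((2 : Fin (r + 4)) : ℕ) = 2 := Nat.mod_eq_of_lt (show 2 < r + 4 by omega)
  obtain ⟨σ, hσ⟩ := exists_sort w
  have ne01 : σ 0 ≠ σ 1 := fun h => by
    have := congrArg Fin.val (σ.injective h)
    rw [n0, n1] at this
    omega
  have ne02 : σ 0 ≠ σ 2 := fun h => by
    have := congrArg Fin.val (σ.injective h)
    rw [n0, n2] at this
    omega
  have ne12 : σ 1 ≠ σ 2 := fun h => by
    have := congrArg Fin.val (σ.injective h)
    rw [n1, n2] at this
    omega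
  have hge := hred _ _ _ ne01 ne02 ne12
  have h21 : w (σ 1) ≤ w (σ 0) := hσ (by rw [Fin.le_def, n1, n0]; omega)
  have h32 : w (σ 2) ≤ w (σ 1) := hσ (by rw [Fin.le_def, n1, n2]; omega)
  have k1 : (Fin.succ (0 : Fin (r + 3))) = (1 : Fin (r + 4)) := Fin.ext (by rw [n1]; rfl)
  have hsplit : ∀ g : Fin (r + 4) → ℕ, ∑ j, g j = g 0 + g 1 +
      ∑ j : Fin (r + 2), g (Fin.succ (Fin.succ j)) := by
    intro g
    rw [Fin.sum_univ_succ, Fin.sum_univ_succ, k1]
    omega
  have key : ∑ j, w j * u j ≤ d * e := by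
    rw [← Equiv.sum_comp σ (fun j => w j * u j), hsplit]
    rw [← Equiv.sum_comp σ u, hsplit] at hs
    have h1 : ∑ j : Fin (r + 2), w (σ (Fin.succ (Fin.succ j))) * u (σ (Fin.succ (Fin.succ j))) ≤
        w (σ 2) * ∑ j : Fin (r + 2), u (σ (Fin.succ (Fin.succ j))) := by
      rw [Finset.mul_sum]
      refine Finset.sum_le_sum fun j _ => Nat.mul_le_mul_right _ (hσ ?_)
      rw [Fin.le_def, n2]
      simp only [Fin.val_succ]
      omega
    have u0 := hu (σ 0)
    have u1 := hu (σ 1)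
    generalize ∑ j : Fin (r + 2), u (σ (Fin.succ (Fin.succ j))) = S at *
    generalize ∑ j : Fin (r + 2), w (σ (Fin.succ (Fin.succ j))) * u (σ (Fin.succ (Fin.succ j))) = T
      at *
    generalize w (σ 0) = a at *
    generalize w (σ 1) = b at *
    generalize w (σ 2) = c at *
    generalize u (σ 0) = x at *
    generalize u (σ 1) = y at *
    obtain ⟨b', rfl⟩ : ∃ b', b = c + b' := ⟨b - c, by omega⟩
    obtain ⟨a', rfl⟩ : ∃ a', a = c + a' := ⟨a - c, by omega⟩
    have h3 : c * (x + y + S) ≤ c * (3 * e) := Nat.mul_le_mul_left _ hs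
    have h4 : a' * x ≤ a' * e := Nat.mul_le_mul_left _ u0
    have h5 : b' * y ≤ b' * e := Nat.mul_le_mul_left _ u1
    have h6 : (c + a' + (c + b') + c) * e ≤ d * e := Nat.mul_le_mul_right _ hge
    nlinarith
  unfold ip
  have h2 : ∑ j, (w j : ℤ) * u j = ((∑ j, w j * u j : ℕ) : ℤ) := by push_cast; rfl
  rw [h2, sub_nonneg]
  exact_mod_cast key

theorem red_nef {K : Type} [Field K] {r : ℕ} {P : Fin (r + 4) → Fin 2 → K} {d : ℕ}
    {w : Fin (r + 4) → ℕ} (hred : Reduced d w) {C : MvPolynomial (Fin 3) K} {e : ℕ}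
    {u : Fin (r + 4) → ℕ} (h : Exc P C e u) : 0 ≤ ip d w e u := by
  refine red_ip hred (fun j => van_le h.irr.ne_zero h.hom (h.ord j).1) ?_
  have := h.can
  omega

end Pool.Agent.K7.H33.SH
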