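import Pool.Agent.K7.H33.SH.Dec

set_option autoImplicit false

/-!
# Reduced classes
-/

namespace Pool.Agent.K7.H33.SH

/-- Any three different multiplicities have sum at most the degree. -/
def Reduced {s : ℕ} (d : ℕ) (w : Fin s → ℕ) : Prop :=
  ∀ i j k : Fin s, i ≠ j → i ≠ k → j ≠ k → w i + w j + w k ≤ d

end Pool.Agent.K7.H33.SH
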