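import Pool.Agent.K7.H33.SH.Base

set_option autoImplicit false

/-!
# The quadratic transformation of curves and linear systems at generic points
-/

namespace Pool.Agent.K7.H33.SH

open MvPolynomial Pool.Agent.W609.CR Pool.Agent.W641.CR

/-- `P'` is the image of `P` under the quadratic transformation based at the three points of
indices `i 0`, `i 1`, `i 2`. -/
structure CRel {K : Type} [Field K] {s : ℕ} (P P' : Fin s → Fin 2 → K) (i : Fin 3 → Fin s) :
    Prop where
  inj : Function.Injective i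
  det : (mat3 P i).det ≠ 0
  nz : ∀ j, (∀ k, j ≠ i k) → ∀ k, ((mat3 P i)⁻¹.mulVec (aff (P j))) k ≠ 0
  base : ∀ k, P' (i k) = P (i k)
  img : ∀ j, (∀ k, j ≠ i k) → ∃ c : K, c ≠ 0 ∧
    (mat3 P i).mulVec (fun k => ((mat3 P i)⁻¹.mulVec (aff (P j)) k)⁻¹) = c • aff (P' j)

theorem exists_crel {K : Type} [Field K] [CharZero K] {s : ℕ} {P : Fin s → Fin 2 → K}
    (hP : AlgebraicIndependent ℚ (fun ij : Fin s × Fin 2 => P ij.1 ij.2))
    {i : Fin 3 → Fin s} (hi : Function.Injective i) :
    ∃ P' : Fin s → Fin 2 → K, AlgebraicIndependent ℚ (fun ij : Fin s × Fin 2 => P' ij.1 ij.2) ∧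
      CRel P P' i := by
  obtain ⟨hdet, hu, P', hP', hP'i, hP'j⟩ := t_gen K s P hP i hi
  exact ⟨P', hP', hi, hdet, hu, hP'i, hP'j⟩

theorem CRel.symm {K : Type} [Field K] {s : ℕ} {P P' : Fin s → Fin 2 → K} {i : Fin 3 → Fin s}
    (h : CRel P P' i) : CRel P' P i := by
  have hmat : mat3 P' i = mat3 P i := by
    unfold mat3
    ext r c
    simp only [Matrix.of_apply]
    rw [h.base]
  have hAu : IsUnit (mat3 P i).det := isUnit_iff_ne_zero.2 h.det
  have hAA : ∀ v, (mat3 P i).mulVec ((mat3 P i)⁻¹.mulVec v) = v := by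
    intro v
    rw [Matrix.mulVec_mulVec, Matrix.mul_nonsing_inv _ hAu, Matrix.one_mulVec]
  have hAA' : ∀ v, (mat3 P i)⁻¹.mulVec ((mat3 P i).mulVec v) = v := by
    intro v
    rw [Matrix.mulVec_mulVec, Matrix.nonsing_inv_mul _ hAu, Matrix.one_mulVec]
  have key : ∀ j, (∀ k, j ≠ i k) → ∃ c : K, c ≠ 0 ∧
      (mat3 P i)⁻¹.mulVec (aff (P' j)) =
        fun k => c⁻¹ * ((mat3 P i)⁻¹.mulVec (aff (P j)) k)⁻¹ := by
    intro j hj
    obtain ⟨c, hc, hcj⟩ := h.img j hj
    refine ⟨c, hc, ?_⟩
    have h1 := congrArg (fun v => (mat3 P i)⁻¹.mulVec v) hcj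
    simp only [hAA'] at h1
    rw [Matrix.mulVec_smul] at h1
    funext k
    have h2 := congrFun h1 k
    rw [Pi.smul_apply, smul_eq_mul] at h2
    rw [h2, ← mul_assoc, inv_mul_cancel₀ hc, one_mul]
  refine ⟨h.inj, by rw [hmat]; exact h.det, ?_, fun k => (h.base k).symm, ?_⟩
  · intro j hj k
    obtain ⟨c, hc, hcj⟩ := key j hj
    rw [hmat, hcj]
    exact mul_ne_zero (inv_ne_zero hc) (inv_ne_zero (h.nz j hj k))
  · intro j hj
    obtain ⟨c, hc, hcj⟩ := key j hj
    refine ⟨c, hc, ?_⟩
    rw [hmat, hcj]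
    have h3 : (fun k => (c⁻¹ * ((mat3 P i)⁻¹.mulVec (aff (P j)) k)⁻¹)⁻¹) =
        c • (mat3 P i)⁻¹.mulVec (aff (P j)) := by
      funext k
      rw [mul_inv, inv_inv, inv_inv]
      rfl
    rw [h3, Matrix.mulVec_smul, hAA]

/-- The standard transformation of an irreducible form not divisible by the variables. -/
theorem std' {K : Type} [Field K] {d : ℕ} {G : MvPolynomial (Fin 3) K} {m : Fin 3 → ℕ}
    {ι : Type} (u : ι → Fin 3 → K) (w : ι → ℕ)
    (hnd : ∀ i, ¬ (X i : MvPolynomial (Fin 3) K) ∣ G) (hirr : Irreducible G)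
    (hG : G.IsHomogeneous d) (hbs : ∀ k, Ord (bs k) (m k) G) (hu : ∀ j k, u j k ≠ 0)
    (hw : ∀ j, Ord (u j) (w j) G) :
    ∃ G' : MvPolynomial (Fin 3) K, Irreducible G' ∧
      G'.IsHomogeneous (2 * d - (m 0 + m 1 + m 2)) ∧
      (∀ k, Ord (bs k) ((![d - (m 1 + m 2), d - (m 0 + m 2), d - (m 0 + m 1)] : Fin 3 → ℕ) k) G') ∧
      (∀ j, Ord (fun k => (u j k)⁻¹) (w j) G') := by
  have hE := fun k => ord_exists hG k (hbs k)
  have hmd : ∀ k, m k ≤ d := by
    intro k
    obtain ⟨a, ha, hak⟩ := (hE k).2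
    omega
  obtain ⟨a2, ha2, hz2⟩ := exists_zero 2 (hnd 2)
  obtain ⟨a1, ha1, hz1⟩ := exists_zero 1 (hnd 1)
  obtain ⟨a0, ha0, hz0⟩ := exists_zero 0 (hnd 0)
  have hdeg2 : a2 0 + a2 1 + a2 2 = d := by
    rw [← sum3]; exact homog_degree (n := 2) hG ha2
  have hdeg1 : a1 0 + a1 1 + a1 2 = d := by
    rw [← sum3]; exact homog_degree (n := 2) hG ha1
  have hdeg0 : a0 0 + a0 1 + a0 2 = d := by
    rw [← sum3]; exact homog_degree (n := 2) hG ha0
  have h01 : m 0 + m 1 ≤ d := by
    have e0 := (hE 0).1 a2 ha2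
    have e1 := (hE 1).1 a2 ha2
    omega
  have h02 : m 0 + m 2 ≤ d := by
    have e0 := (hE 0).1 a1 ha1
    have e1 := (hE 2).1 a1 ha1
    omega
  have h12 : m 1 + m 2 ≤ d := by
    have e0 := (hE 1).1 a0 ha0
    have e1 := (hE 2).1 a0 ha0
    omega
  set N : Fin 3 →₀ ℕ := Finsupp.equivFunOnFinite.symm (fun k => d - m k) with hNdef
  have hNk : ∀ k, N k = d - m k := fun k => by simp [hNdef]
  have hNle : ∀ a ∈ G.support, a ≤ N := by
    intro a ha k
    rw [hNk]
    have := (hE k).1 a ha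
    omega
  have hNdeg : ∀ k, N k = degreeOf k G := by
    intro k
    rw [hNk, MvPolynomial.degreeOf_eq_sup]
    obtain ⟨a, ha, hak⟩ := (hE k).2
    apply le_antisymm
    · have h1 : a k ≤ G.support.sup fun b => b k := Finset.le_sup (f := fun b => b k) ha
      omega
    · refine Finset.sup_le fun b hb => ?_
      have := (hE k).1 b hb
      omega
  obtain ⟨hirr', -, hdeg', hrr⟩ := t_star K G N hirr hnd hNdeg
  set G' := rev (n := 2) N G with hG'def
  have hNsum : N.degree = (d - m 0) + (d - m 1) + (d - m 2) := by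
    rw [sum3, hNk, hNk, hNk]
  have hhom : G'.IsHomogeneous (2 * d - (m 0 + m 1 + m 2)) := by
    have h1 := rev_homog (n := 2) hG hNle
    have h2 : N.degree - d = 2 * d - (m 0 + m 1 + m 2) := by
      rw [hNsum]
      have e0 := hmd 0
      have e1 := hmd 1
      have e2 := hmd 2
      omega
    rw [← h2]
    exact h1
  have hN'le : ∀ a ∈ G'.support, a ≤ N := by
    intro a ha
    obtain ⟨b, hb, rfl⟩ := mem_support_rev (n := 2) ha
    exact tsub_le_self
  have hne' : G'.support.Nonempty := by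
    rw [MvPolynomial.support_nonempty]
    exact hirr'.ne_zero
  have hex : ∀ k, ∃ a ∈ G'.support, a k = N k := by
    intro k
    have h1 := hdeg' k
    rw [MvPolynomial.degreeOf_eq_sup] at h1
    obtain ⟨a, ha, hak⟩ := Finset.exists_mem_eq_sup _ hne' (fun b : Fin 3 →₀ ℕ => b k)
    refine ⟨a, ha, ?_⟩
    rw [← h1]
    exact hak.symm
  refine ⟨G', hirr', hhom, ?_, ?_⟩
  · have key : ∀ k (c : ℕ), c + N k = 2 * d - (m 0 + m 1 + m 2) → Ord (bs k) c G' := by
      intro k c hc
      apply ord_of_exists hhom k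
      · intro a ha
        have := hN'le a ha k
        omega
      · obtain ⟨a, ha, hak⟩ := hex k
        exact ⟨a, ha, by omega⟩
    intro k
    have e0 := hmd 0
    have e1 := hmd 1
    have e2 := hmd 2
    fin_cases k
    · apply key
      have := hNk 0
      simp only [Fin.zero_eta, Fin.isValue, Matrix.cons_val_zero]
      omega
    · apply key
      have := hNk 1
      simp only [Fin.mk_one, Fin.isValue, Matrix.cons_val_one, Matrix.cons_val_zero]
      omega
    · apply key
      have := hNk 2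
      simp only [Fin.reduceFinMk, Fin.isValue, Matrix.cons_val]
      omega
  · intro j
    refine ⟨?_, ?_⟩
    · exact rev_mem (n := 2) hNle (u j) (hu j) (w j) (hw j).1
    · intro hv
      apply (hw j).2
      have h1 := rev_mem (n := 2) hN'le (fun k => (u j k)⁻¹) (fun k => inv_ne_zero (hu j k))
        (w j + 1) hv
      simp only [inv_inv] at h1
      rw [hrr] at h1
      exact h1

/-- An irreducible form satisfying the three inequalities is not divisible by the variables. -/
theorem not_dvd_of_pairs {K : Type} [Field K] {d : ℕ} {G : MvPolynomial (Fin 3) K}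
    {m : Fin 3 → ℕ} (hirr : Irreducible G) (hG : G.IsHomogeneous d)
    (hbs : ∀ k, Ord (bs k) (m k) G) (h01 : m 0 + m 1 ≤ d) (h02 : m 0 + m 2 ≤ d)
    (h12 : m 1 + m 2 ≤ d) (i : Fin 3) : ¬ (X i : MvPolynomial (Fin 3) K) ∣ G := by
  have hd0 := deg_pos hirr hG
  rcases Nat.lt_or_ge d 2 with hd | hd
  · have hd1 : d = 1 := by omega
    subst hd1
    rintro ⟨H, hH⟩
    have hv : ∀ l, l ≠ i → 1 ≤ m l := by
      intro l hl
      by_contra hcon
      have h0 : m l = 0 := by omega
      have h1 := (hbs l).2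
      rw [h0] at h1
      apply h1
      rw [zero_add, van_one, hH, map_mul, eval_X]
      have h2 : (bs l : Fin 3 → K) i = 0 := by
        unfold bs
        exact Pi.single_eq_of_ne hl.symm 1
      rw [h2, zero_mul]
    fin_cases i
    · have h1 := hv 1 (by decide)
      have h2 := hv 2 (by decide)
      omega
    · have h1 := hv 0 (by decide)
      have h2 := hv 2 (by decide)
      omega
    · have h1 := hv 0 (by decide)
      have h2 := hv 1 (by decide)
      omega
  · exact not_dvd hd hirr hG i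

/-- The transformation of an irreducible curve. -/
theorem CRel.irr {K : Type} [Field K] {s : ℕ} {P P' : Fin s → Fin 2 → K} {i : Fin 3 → Fin s}
    (h : CRel P P' i) {d : ℕ} {G : MvPolynomial (Fin 3) K} {w : Fin s → ℕ}
    (hG : Irreducible G) (hGh : G.IsHomogeneous d) (hGo : ∀ j, Ord (aff (P j)) (w j) G)
    (p01 : w (i 0) + w (i 1) ≤ d) (p02 : w (i 0) + w (i 2) ≤ d) (p12 : w (i 1) + w (i 2) ≤ d) :
    ∃ G' : MvPolynomial (Fin 3) K, Irreducible G' ∧
      G'.IsHomogeneous (2 * d - (w (i 0) + w (i 1) + w (i 2))) ∧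
      (∀ j, Ord (aff (P' j)) (wcr d i w j) G') := by
  obtain ⟨hL, hS⟩ := t_lin K
  have hdet := h.det
  have hi := h.inj
  have hu := h.nz
  have hP'i := h.base
  have hP'j := h.img
  set A := mat3 P i with hA
  have hAu : IsUnit A.det := isUnit_iff_ne_zero.2 hdet
  have hdet' : A⁻¹.det ≠ 0 := by
    rw [Matrix.det_nonsing_inv]
    simpa using hdet
  have hAbs : ∀ k, A.mulVec (bs k) = aff (P (i k)) := by
    intro k
    funext r
    simp only [bs, Matrix.mulVec_single_one]
    simp [hA, mat3, Matrix.col]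
  have hAA : ∀ v, A.mulVec (A⁻¹.mulVec v) = v := by
    intro v
    rw [Matrix.mulVec_mulVec, Matrix.mul_nonsing_inv _ hAu, Matrix.one_mulVec]
  have hAA' : ∀ v, A⁻¹.mulVec (A.mulVec v) = v := by
    intro v
    rw [Matrix.mulVec_mulVec, Matrix.nonsing_inv_mul _ hAu, Matrix.one_mulVec]
  obtain ⟨hLh, hLi, hLv, hLd⟩ := hL A hdet
  obtain ⟨hLh', hLi', hLv', hLd'⟩ := hL A⁻¹ hdet'
  let J : Type := {j : Fin s // ∀ k, j ≠ i k}
  let u : J → Fin 3 → K := fun j => A⁻¹.mulVec (aff (P j.1))
  have hAuj : ∀ j : J, A.mulVec (u j) = aff (P j.1) := fun j => hAA _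
  have hu0 : ∀ (j : J) (k : Fin 3), u j k ≠ 0 := fun j k => hu j.1 j.2 k
  -- the first form
  have hG1k : ∀ k, Ord (bs k) (w (i k)) (lin A G) := by
    intro k
    refine ⟨(hLv _ _ _).1 ?_, fun h => (hGo (i k)).2 ?_⟩
    · rw [hAbs]; exact (hGo (i k)).1
    · rw [← hAbs]; exact (hLv _ _ _).2 h
  have hG1j : ∀ j : J, Ord (u j) (w j.1) (lin A G) := by
    intro j
    refine ⟨(hLv _ _ _).1 ?_, fun h => (hGo j.1).2 ?_⟩
    · rw [hAuj]; exact (hGo j.1).1
    · rw [← hAuj]; exact (hLv _ _ _).2 h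
  have hnd := not_dvd_of_pairs (m := fun k => w (i k)) (hLi G hG) (hLh G d hGh) hG1k p01 p02 p12
  obtain ⟨G2, hG2, hG2h, hG2k, hG2j⟩ :=
    std' u (fun j => w j.1) hnd (hLi G hG) (hLh G d hGh) hG1k hu0 hG1j
  refine ⟨lin A⁻¹ G2, hLi' _ hG2, hLh' _ _ hG2h, ?_⟩
  -- the multiplicities
  have hG3k : ∀ k, Ord (aff (P' (i k)))
      ((![d - (w (i 1) + w (i 2)), d - (w (i 0) + w (i 2)), d - (w (i 0) + w (i 1))] :
        Fin 3 → ℕ) k) (lin A⁻¹ G2) := by
    intro k
    have hk : A⁻¹.mulVec (aff (P' (i k))) = bs k := by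
      rw [hP'i, ← hAbs, hAA']
    have hk2 := hG2k k
    refine ⟨(hLv' _ _ _).1 ?_, fun h => hk2.2 ?_⟩
    · rw [hk]; exact hk2.1
    · rw [← hk]; exact (hLv' _ _ _).2 h
  intro j
  by_cases h0 : j = i 0
  · have := hG3k 0
    simp only [Matrix.cons_val_zero] at this
    rw [h0]
    simpa [wcr] using this
  by_cases h1' : j = i 1
  · have := hG3k 1
    simp only [Matrix.cons_val_one, Matrix.cons_val_zero] at this
    have h10 : i 1 ≠ i 0 := by rw [← h1']; exact h0
    rw [h1']
    simpa [wcr, h10] using this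
  by_cases h2' : j = i 2
  · have := hG3k 2
    simp only [Matrix.cons_val] at this
    have h20 : i 2 ≠ i 0 := by rw [← h2']; exact h0
    have h21 : i 2 ≠ i 1 := by rw [← h2']; exact h1'
    rw [h2']
    simpa [wcr, h20, h21] using this
  · have hj : ∀ k, j ≠ i k := by
      intro k
      fin_cases k
      · exact h0
      · exact h1'
      · exact h2'
    have hwj : wcr d i w j = w j := by simp [wcr, h0, h1', h2']
    rw [hwj]
    obtain ⟨c, hc, hcj⟩ := hP'j j hj
    have hG2j' := hG2j ⟨j, hj⟩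
    have hv : A⁻¹.mulVec (c • aff (P' j)) = fun k => (u ⟨j, hj⟩ k)⁻¹ := by
      rw [← hcj, hAA']
    have key : ∀ m, Van (aff (P' j)) m (lin A⁻¹ G2) ↔
        Van (fun k => (u ⟨j, hj⟩ k)⁻¹) m G2 := by
      intro m
      rw [← hS (lin A⁻¹ G2) _ (hLh' _ _ hG2h) c hc, ← hLv', hv]
    exact ⟨(key _).2 hG2j'.1, fun h => hG2j'.2 ((key _).1 h)⟩

/-- The dimensions: one inequality. -/
theorem CRel.dim_le {K : Type} [Field K] {s : ℕ} {P P' : Fin s → Fin 2 → K} {i : Fin 3 → Fin s}
    (h : CRel P P' i) {d : ℕ} {w : Fin s → ℕ}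
    (p01 : w (i 0) + w (i 1) ≤ d) (p02 : w (i 0) + w (i 2) ≤ d) (p12 : w (i 1) + w (i 2) ≤ d) :
    Module.finrank K (VS (fun j => aff (P j)) w d) ≤
      Module.finrank K (VS (fun j => aff (P' j)) (wcr d i w)
        (2 * d - (w (i 0) + w (i 1) + w (i 2)))) := by
  classical
  obtain ⟨hL, hS⟩ := t_lin K
  have hdet := h.det
  have hi := h.inj
  have hu := h.nz
  have hP'i := h.base
  have hP'j := h.img
  set A := mat3 P i with hA
  have hAu : IsUnit A.det := isUnit_iff_ne_zero.2 hdet
  have hAbs : ∀ k, A.mulVec (bs k) = aff (P (i k)) := by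
    intro k
    funext r
    simp only [bs, Matrix.mulVec_single_one]
    simp [hA, mat3, Matrix.col]
  have hAA : ∀ v, A.mulVec (A⁻¹.mulVec v) = v := by
    intro v
    rw [Matrix.mulVec_mulVec, Matrix.mul_nonsing_inv _ hAu, Matrix.one_mulVec]
  obtain ⟨hLh, hLi, hLv, hLd⟩ := hL A hdet
  let J : Type := {j : Fin s // ∀ k, j ≠ i k}
  let u : J → Fin 3 → K := fun j => A⁻¹.mulVec (aff (P j.1))
  have hAuj : ∀ j : J, A.mulVec (u j) = aff (P j.1) := fun j => hAA _
  have hu0 : ∀ (j : J) (k : Fin 3), u j k ≠ 0 := fun j k => hu j.1 j.2 k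
  have hbij : Function.Bijective (Sum.elim i (fun j : J => j.1)) := by
    constructor
    · intro x y hxy
      rcases x with k | j <;> rcases y with k' | j'
      · simp only [Sum.elim_inl] at hxy
        rw [hi hxy]
      · simp only [Sum.elim_inl, Sum.elim_inr] at hxy
        exact absurd hxy.symm (j'.2 k)
      · simp only [Sum.elim_inl, Sum.elim_inr] at hxy
        exact absurd hxy (j.2 k')
      · simp only [Sum.elim_inr] at hxy
        exact congrArg _ (Subtype.ext hxy)
    · intro j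
      by_cases h : ∃ k, j = i k
      · obtain ⟨k, hk⟩ := h
        exact ⟨Sum.inl k, hk.symm⟩
      · push Not at h
        exact ⟨Sum.inr ⟨j, h⟩, rfl⟩
  let e : Fin 3 ⊕ J ≃ Fin s := Equiv.ofBijective _ hbij
  have he : ∀ x, e x = Sum.elim i (fun j : J => j.1) x := fun x => rfl
  have : Fintype J := Fintype.ofInjective (fun j : J => j.1) Subtype.val_injective
  have hv1 : (fun x => aff (P (e x))) = fun x => A.mulVec (Sum.elim bs u x) := by
    funext x
    rcases x with k | j
    · simp only [he, Sum.elim_inl]; rw [hAbs]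
    · simp only [he, Sum.elim_inr]; rw [hAuj]
  have hw1 : (fun x => w (e x)) = Sum.elim (fun k => w (i k)) (fun j : J => w j.1) := by
    funext x
    rcases x with k | j
    · simp only [he, Sum.elim_inl]
    · simp only [he, Sum.elim_inr]
  have hw2 : (fun x => wcr d i w (e x)) =
      Sum.elim (![d - (w (i 1) + w (i 2)), d - (w (i 0) + w (i 2)), d - (w (i 0) + w (i 1))] :
        Fin 3 → ℕ) (fun j : J => w j.1) := by
    funext x
    rcases x with k | j
    · simp only [he, Sum.elim_inl]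
      have h10 : i 1 ≠ i 0 := fun h => absurd (hi h) (by decide)
      have h20 : i 2 ≠ i 0 := fun h => absurd (hi h) (by decide)
      have h21 : i 2 ≠ i 1 := fun h => absurd (hi h) (by decide)
      fin_cases k
      · simp [wcr]
      · simp [wcr, h10]
      · simp [wcr, h20, h21]
    · simp only [he, Sum.elim_inr]
      simp [wcr, j.2 0, j.2 1, j.2 2]
  calc Module.finrank K (VS (fun j => aff (P j)) w d)
      = Module.finrank K (VS (fun x => aff (P (e x))) (fun x => w (e x)) d) := by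
        rw [Pool.Agent.W150.CR.VS_reindex e (fun j => aff (P j)) w d]
    _ = Module.finrank K (VS (Sum.elim bs u)
          (Sum.elim (fun k => w (i k)) (fun j : J => w j.1)) d) := by
        rw [hv1, hw1, hLd]
    _ ≤ Module.finrank K (VS (Sum.elim bs fun j k => (u j k)⁻¹)
          (Sum.elim (![d - (w (i 1) + w (i 2)), d - (w (i 0) + w (i 2)),
            d - (w (i 0) + w (i 1))] : Fin 3 → ℕ) (fun j : J => w j.1))
          (2 * d - (w (i 0) + w (i 1) + w (i 2)))) :=
        t_stdv K d (fun k => w (i k)) J u (fun j => w j.1) hu0 p01 p02 p12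
    _ = Module.finrank K (VS (fun x => A.mulVec ((Sum.elim bs fun j k => (u j k)⁻¹) x))
          (Sum.elim (![d - (w (i 1) + w (i 2)), d - (w (i 0) + w (i 2)),
            d - (w (i 0) + w (i 1))] : Fin 3 → ℕ) (fun j : J => w j.1))
          (2 * d - (w (i 0) + w (i 1) + w (i 2)))) := by
        rw [hLd]
    _ = Module.finrank K (VS (fun x => aff (P' (e x))) (fun x => wcr d i w (e x))
          (2 * d - (w (i 0) + w (i 1) + w (i 2)))) := by
        rw [hw2]
        have : VS (fun x => A.mulVec ((Sum.elim bs fun (j : J) k => (u j k)⁻¹) x))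
          (Sum.elim (![d - (w (i 1) + w (i 2)), d - (w (i 0) + w (i 2)),
            d - (w (i 0) + w (i 1))] : Fin 3 → ℕ) (fun j : J => w j.1))
          (2 * d - (w (i 0) + w (i 1) + w (i 2))) =
          VS (fun x => aff (P' (e x))) (Sum.elim (![d - (w (i 1) + w (i 2)),
            d - (w (i 0) + w (i 2)),
            d - (w (i 0) + w (i 1))] : Fin 3 → ℕ) (fun j : J => w j.1))
          (2 * d - (w (i 0) + w (i 1) + w (i 2))) := by
          ext f
          rw [mem_VS, mem_VS]
          refine and_congr_right fun hf => forall_congr' fun x => ?_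
          rcases x with k | j
          · simp only [he, Sum.elim_inl]
            rw [hAbs, hP'i]
          · simp only [he, Sum.elim_inr]
            obtain ⟨c, hc, hcj⟩ := hP'j j.1 j.2
            have : A.mulVec (fun k => (u j k)⁻¹) = c • aff (P' j.1) := hcj
            rw [this]
            exact hS f _ hf c hc _ _
        rw [this]
    _ = Module.finrank K (VS (fun j => aff (P' j)) (wcr d i w)
          (2 * d - (w (i 0) + w (i 1) + w (i 2)))) := by
        rw [Pool.Agent.W150.CR.VS_reindex e (fun j => aff (P' j)) (wcr d i w)]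

end Pool.Agent.K7.H33.SH
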