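import Pool.Agent.K7.H33.SH.Gen

set_option autoImplicit false

/-!
# General points: quadratic transformations and `(-1)`-curves
-/

namespace Pool.Agent.K7.H33.SH

open MvPolynomial Pool.Agent.W609 Pool.Agent.W609.CR

/-- Evaluation at the points. -/
noncomputable def evP {K : Type} [Field K] [CharZero K] {s : ℕ} (P : Fin s → Fin 2 → K) :
    MvPolynomial (Fin s × Fin 2) ℚ →+* K :=
  (MvPolynomial.aeval (fun ij : Fin s × Fin 2 => P ij.1 ij.2)).toRingHom

theorem evP_apply {K : Type} [Field K] [CharZero K] {s : ℕ} (P : Fin s → Fin 2 → K)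
    (F : MvPolynomial (Fin s × Fin 2) ℚ) :
    evP P F = MvPolynomial.aeval (fun ij : Fin s × Fin 2 => P ij.1 ij.2) F := rfl

theorem evP_X {K : Type} [Field K] [CharZero K] {s : ℕ} (P : Fin s → Fin 2 → K) (j : Fin s)
    (k : Fin 2) : evP P (X (j, k)) = P j k := by
  rw [evP_apply, aeval_X]

theorem evP_uv {K : Type} [Field K] [CharZero K] {s : ℕ} (P : Fin s → Fin 2 → K) (j : Fin s) :
    (fun l => evP P (uv j l)) = aff (P j) := by
  funext l
  fin_cases l
  · exact evP_X P j 0
  · exact evP_X P j 1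
  · exact map_one _

theorem evP_ne {K : Type} [Field K] [CharZero K] {s : ℕ} {P : Fin s → Fin 2 → K}
    (hP : AlgebraicIndependent ℚ (fun ij : Fin s × Fin 2 => P ij.1 ij.2))
    {F : MvPolynomial (Fin s × Fin 2) ℚ} (hF : F ≠ 0) : evP P F ≠ 0 :=
  fun h0 => hF (hP.eq_zero_of_aeval_eq_zero F h0)

/-- Generic points exist. -/
theorem exists_generic (s : ℕ) : ∃ (K : Type) (_ : Field K) (_ : CharZero K)
    (P : Fin s → Fin 2 → K), AlgebraicIndependent ℚ (fun ij : Fin s × Fin 2 => P ij.1 ij.2) := by
  refine ⟨FractionRing (MvPolynomial (Fin s × Fin 2) ℚ), inferInstance, ?_,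
    fun j k => algebraMap (MvPolynomial (Fin s × Fin 2) ℚ)
      (FractionRing (MvPolynomial (Fin s × Fin 2) ℚ)) (X (j, k)), ?_⟩
  · exact charZero_of_injective_algebraMap (R := MvPolynomial (Fin s × Fin 2) ℚ)
      (IsFractionRing.injective _ _)
  · have h1 := MvPolynomial.algebraicIndependent_X (Fin s × Fin 2) ℚ
    have h2 := h1.map' (f := IsScalarTower.toAlgHom ℚ (MvPolynomial (Fin s × Fin 2) ℚ)
      (FractionRing (MvPolynomial (Fin s × Fin 2) ℚ))) (IsFractionRing.injective _ _)
    exact h2

/-- The universal matrix. -/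
noncomputable def mR {s : ℕ} (i : Fin 3 → Fin s) :
    Matrix (Fin 3) (Fin 3) (MvPolynomial (Fin s × Fin 2) ℚ) :=
  Matrix.of fun r c => uv (i c) r

noncomputable def yR {s : ℕ} (i : Fin 3 → Fin s) (j : Fin s) :
    Fin 3 → MvPolynomial (Fin s × Fin 2) ℚ := (mR i).adjugate.mulVec (uv j)

noncomputable def zR {s : ℕ} (i : Fin 3 → Fin s) (j : Fin s) :
    Fin 3 → MvPolynomial (Fin s × Fin 2) ℚ :=
  (mR i).mulVec ![yR i j 1 * yR i j 2, yR i j 0 * yR i j 2, yR i j 0 * yR i j 1]

noncomputable def fR {s : ℕ} (i : Fin 3 → Fin s) (j : Fin s) : MvPolynomial (Fin s × Fin 2) ℚ :=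
  yR i j 0 * yR i j 1 * yR i j 2 * zR i j 2

open Classical in
noncomputable def dR {s : ℕ} (i : Fin 3 → Fin s) : MvPolynomial (Fin s × Fin 2) ℚ :=
  (mR i).det * ∏ j ∈ Finset.univ.filter (fun j => ∀ k, j ≠ i k), fR i j

theorem mR_map {K : Type} [Field K] [CharZero K] {s : ℕ} (P : Fin s → Fin 2 → K)
    (i : Fin 3 → Fin s) : (mR i).map (evP P) = mat3 P i := by
  ext r c
  rw [Matrix.map_apply]
  exact congrFun (evP_uv P (i c)) r

theorem mR_det {K : Type} [Field K] [CharZero K] {s : ℕ} (P : Fin s → Fin 2 → K)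
    (i : Fin 3 → Fin s) : evP P (mR i).det = (mat3 P i).det := by
  rw [RingHom.map_det, RingHom.mapMatrix_apply, mR_map]

theorem yR_map {K : Type} [Field K] [CharZero K] {s : ℕ} (P : Fin s → Fin 2 → K)
    (i : Fin 3 → Fin s) (j : Fin s) :
    (fun k => evP P (yR i j k)) = (mat3 P i).adjugate.mulVec (aff (P j)) := by
  have h1 : (mR i).adjugate.map (evP P) = (mat3 P i).adjugate := by
    rw [← mR_map, ← RingHom.mapMatrix_apply, ← RingHom.mapMatrix_apply, RingHom.map_adjugate]
  rw [← h1, ← evP_uv P j]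
  funext k
  unfold yR
  exact RingHom.map_mulVec (evP P) _ _ k

theorem zR_map {K : Type} [Field K] [CharZero K] {s : ℕ} (P : Fin s → Fin 2 → K)
    (i : Fin 3 → Fin s) (j : Fin s) :
    (fun k => evP P (zR i j k)) = (mat3 P i).mulVec
      ![evP P (yR i j 1) * evP P (yR i j 2), evP P (yR i j 0) * evP P (yR i j 2),
        evP P (yR i j 0) * evP P (yR i j 1)] := by
  rw [← mR_map]
  funext k
  unfold zR
  have h1 : (evP P) ∘ ![yR i j 1 * yR i j 2, yR i j 0 * yR i j 2, yR i j 0 * yR i j 1] =
      ![evP P (yR i j 1) * evP P (yR i j 2), evP P (yR i j 0) * evP P (yR i j 2),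
        evP P (yR i j 0) * evP P (yR i j 1)] := by
    funext l
    fin_cases l <;> simp
  rw [← h1]
  exact RingHom.map_mulVec (evP P) _ _ k

/-- The image points. -/
noncomputable def crp {K : Type} [Field K] [CharZero K] {s : ℕ} (i : Fin 3 → Fin s)
    (P : Fin s → Fin 2 → K) : Fin s → Fin 2 → K := fun j =>
  open Classical in
  if ∀ k, j ≠ i k then ![evP P (zR i j 0) / evP P (zR i j 2), evP P (zR i j 1) / evP P (zR i j 2)]
  else P j

theorem adj_eq {K : Type} [Field K] {A : Matrix (Fin 3) (Fin 3) K} (h : A.det ≠ 0)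
    (v : Fin 3 → K) (k : Fin 3) : A.adjugate.mulVec v k = A.det * A⁻¹.mulVec v k := by
  rw [Matrix.inv_def, Ring.inverse_eq_inv', Matrix.smul_mulVec, Pi.smul_apply, smul_eq_mul,
    ← mul_assoc, mul_inv_cancel₀ h, one_mul]

/-- `A (1 / u)` in terms of `z`. -/
theorem img_eq {K : Type} [Field K] [CharZero K] {s : ℕ} (P : Fin s → Fin 2 → K)
    (i : Fin 3 → Fin s) (j : Fin s) (hdet : (mat3 P i).det ≠ 0)
    (hy : ∀ k, evP P (yR i j k) ≠ 0) :
    (mat3 P i).mulVec (fun k => ((mat3 P i)⁻¹.mulVec (aff (P j)) k)⁻¹) =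
      ((mat3 P i).det * (evP P (yR i j 0) * evP P (yR i j 1) * evP P (yR i j 2))⁻¹) •
        fun k => evP P (zR i j k) := by
  rw [zR_map, ← Matrix.mulVec_smul]
  congr 1
  have h1 : ∀ k, ((mat3 P i)⁻¹.mulVec (aff (P j)) k)⁻¹ =
      (mat3 P i).det * (evP P (yR i j k))⁻¹ := by
    intro k
    have h2 : evP P (yR i j k) = _ := congrFun (yR_map P i j) k
    rw [h2, adj_eq hdet, mul_inv, ← mul_assoc, mul_inv_cancel₀ hdet, one_mul]
  funext k
  rw [h1]
  have y0 := hy 0
  have y1 := hy 1
  have y2 := hy 2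
  fin_cases k
  · simp only [Fin.zero_eta, Fin.isValue, Pi.smul_apply, Matrix.cons_val_zero, smul_eq_mul]
    field_simp
  · simp only [Fin.mk_one, Fin.isValue, Pi.smul_apply, Matrix.cons_val_one, Matrix.cons_val_zero,
      smul_eq_mul]
    field_simp
  · simp only [Fin.reduceFinMk, Fin.isValue, Pi.smul_apply, Matrix.cons_val, smul_eq_mul]
    field_simp

theorem crp_crel {K : Type} [Field K] [CharZero K] {s : ℕ} (P : Fin s → Fin 2 → K)
    {i : Fin 3 → Fin s} (hi : Function.Injective i) (hD : evP P (dR i) ≠ 0) :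
    CRel P (crp i P) i := by
  classical
  unfold dR at hD
  rw [map_mul, map_prod] at hD
  have hdet : (mat3 P i).det ≠ 0 := by
    rw [← mR_det]
    exact left_ne_zero_of_mul hD
  have hf : ∀ j, (∀ k, j ≠ i k) → evP P (fR i j) ≠ 0 := by
    intro j hj
    exact Finset.prod_ne_zero_iff.1 (right_ne_zero_of_mul hD) j
      (Finset.mem_filter.2 ⟨Finset.mem_univ _, hj⟩)
  have hyz : ∀ j, (∀ k, j ≠ i k) → (∀ k, evP P (yR i j k) ≠ 0) ∧ evP P (zR i j 2) ≠ 0 := by
    intro j hj
    have h1 := hf j hj
    unfold fR at h1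
    rw [map_mul, map_mul, map_mul] at h1
    refine ⟨fun k => ?_, right_ne_zero_of_mul h1⟩
    have h2 := left_ne_zero_of_mul h1
    fin_cases k
    · exact left_ne_zero_of_mul (left_ne_zero_of_mul h2)
    · exact right_ne_zero_of_mul (left_ne_zero_of_mul h2)
    · exact right_ne_zero_of_mul h2
  refine ⟨hi, hdet, ?_, ?_, ?_⟩
  · intro j hj k h0
    have h1 : evP P (yR i j k) = _ := congrFun (yR_map P i j) k
    rw [adj_eq hdet, h0, mul_zero] at h1
    exact (hyz j hj).1 k h1
  · intro k
    unfold crp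
    rw [if_neg (fun h => h k rfl)]
  · intro j hj
    obtain ⟨hy, hz⟩ := hyz j hj
    refine ⟨((mat3 P i).det * (evP P (yR i j 0) * evP P (yR i j 1) * evP P (yR i j 2))⁻¹) *
      evP P (zR i j 2), ?_, ?_⟩
    · exact mul_ne_zero (mul_ne_zero hdet (inv_ne_zero (mul_ne_zero (mul_ne_zero (hy 0) (hy 1))
        (hy 2)))) hz
    · rw [img_eq P i j hdet hy]
      conv_rhs => rw [mul_smul]
      congr 1
      unfold crp
      rw [if_pos hj]
      funext k
      fin_cases k
      · simp [aff, mul_div_cancel₀ _ hz]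
      · simp [aff, mul_div_cancel₀ _ hz]
      · simp [aff]

theorem crel_unique {K : Type} [Field K] {s : ℕ} {P P' P'' : Fin s → Fin 2 → K}
    {i : Fin 3 → Fin s} (h : CRel P P' i) (h' : CRel P P'' i) : P' = P'' := by
  funext j
  by_cases hj : ∀ k, j ≠ i k
  · obtain ⟨c, hc, hcj⟩ := h.img j hj
    obtain ⟨c', hc', hcj'⟩ := h'.img j hj
    rw [hcj] at hcj'
    have h2 := congrFun hcj' 2
    simp only [aff, Pi.smul_apply, Matrix.cons_val, smul_eq_mul, mul_one] at h2
    subst h2
    have h3 := smul_right_injective (Fin 3 → K) hc hcj'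
    funext k
    fin_cases k
    · have := congrFun h3 0
      simpa [aff] using this
    · have := congrFun h3 1
      simpa [aff] using this
  · push Not at hj
    obtain ⟨k, hk⟩ := hj
    rw [hk, h.base, h'.base]

theorem dR_ne {s : ℕ} {i : Fin 3 → Fin s} (hi : Function.Injective i) : dR i ≠ 0 := by
  classical
  obtain ⟨K, _, _, P, hP⟩ := exists_generic s
  obtain ⟨P', hP', hr⟩ := exists_crel hP hi
  have hdet : (mR i).det ≠ 0 := by
    intro h
    have h1 := mR_det P i
    rw [h, map_zero] at h1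
    exact hr.det h1.symm
  unfold dR
  refine mul_ne_zero hdet (Finset.prod_ne_zero_iff.2 fun j hj => ?_)
  rw [Finset.mem_filter] at hj
  have hy : ∀ k, evP P (yR i j k) ≠ 0 := by
    intro k h0
    have h1 : evP P (yR i j k) = _ := congrFun (yR_map P i j) k
    rw [adj_eq hr.det, h0] at h1
    exact mul_ne_zero hr.det (hr.nz j hj.2 k) h1.symm
  have hz : evP P (zR i j 2) ≠ 0 := by
    intro h0
    obtain ⟨c, hc, hcj⟩ := hr.img j hj.2
    rw [img_eq P i j hr.det hy] at hcj
    have h2 := congrFun hcj 2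
    simp only [aff, Pi.smul_apply, Matrix.cons_val, smul_eq_mul, mul_one, h0, mul_zero] at h2
    exact hc h2.symm
  intro h0
  have h1 : evP P (fR i j) = 0 := by rw [h0, map_zero]
  unfold fR at h1
  rw [map_mul, map_mul, map_mul] at h1
  exact mul_ne_zero (mul_ne_zero (mul_ne_zero (hy 0) (hy 1)) (hy 2)) hz h1

/-- Substitution of the image points. -/
theorem subst {s : ℕ} (i : Fin 3 → Fin s) (F : MvPolynomial (Fin s × Fin 2) ℚ) :
    ∃ (G : MvPolynomial (Fin s × Fin 2) ℚ) (n : ℕ), ∀ (K : Type) [Field K] [CharZero K]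
      (P : Fin s → Fin 2 → K), evP P (dR i) ≠ 0 →
        evP P G = evP P (dR i) ^ n * evP (crp i P) F := by
  classical
  induction F using MvPolynomial.induction_on with
  | C a =>
    refine ⟨C a, 0, fun K _ _ P hP => ?_⟩
    rw [pow_zero, one_mul, evP_apply, evP_apply, aeval_C, aeval_C]
  | add F1 F2 h1 h2 =>
    obtain ⟨G1, n1, h1⟩ := h1
    obtain ⟨G2, n2, h2⟩ := h2
    refine ⟨G1 * dR i ^ n2 + G2 * dR i ^ n1, n1 + n2, fun K _ _ P hP => ?_⟩
    rw [map_add, map_mul, map_mul, map_pow, map_pow, h1 K P hP, h2 K P hP, map_add]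
    ring
  | mul_X F1 jk h1 =>
    obtain ⟨G1, n1, h1⟩ := h1
    obtain ⟨j, k⟩ := jk
    have hN : ∃ N : MvPolynomial (Fin s × Fin 2) ℚ, ∀ (K : Type) [Field K] [CharZero K]
        (P : Fin s → Fin 2 → K), evP P (dR i) ≠ 0 →
          evP P N = evP P (dR i) * crp i P j k := by
      by_cases hj : ∀ k, j ≠ i k
      · have hdvd : zR i j 2 ∣ dR i := by
          unfold dR
          refine Dvd.dvd.mul_left (Dvd.dvd.trans ?_ (Finset.dvd_prod_of_mem _
            (Finset.mem_filter.2 ⟨Finset.mem_univ j, hj⟩))) _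
          unfold fR
          exact dvd_mul_left _ _
        obtain ⟨E, hE⟩ := hdvd
        refine ⟨E * zR i j k.castSucc, fun K _ _ P hP => ?_⟩
        rw [hE, map_mul] at hP
        have hz := left_ne_zero_of_mul hP
        unfold crp
        rw [if_pos hj, hE, map_mul, map_mul]
        fin_cases k
        · simp only [Fin.zero_eta, Fin.isValue, Fin.castSucc_zero, Matrix.cons_val_zero]
          field_simp
        · simp only [Fin.mk_one, Fin.isValue, Fin.castSucc_one, Matrix.cons_val_one,
            Matrix.cons_val_zero]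
          field_simp
      · refine ⟨dR i * X (j, k), fun K _ _ P hP => ?_⟩
        unfold crp
        rw [if_neg hj, map_mul, evP_X]
    obtain ⟨N, hN⟩ := hN
    refine ⟨G1 * N, n1 + 1, fun K _ _ P hP => ?_⟩
    rw [map_mul, h1 K P hP, hN K P hP, map_mul, evP_X]
    ring

/-- The image of general points is general. -/
theorem crel_gen {s : ℕ} {i : Fin 3 → Fin s} (hi : Function.Injective i)
    {F' : MvPolynomial (Fin s × Fin 2) ℚ} (hF' : F' ≠ 0) :
    ∃ F : MvPolynomial (Fin s × Fin 2) ℚ, F ≠ 0 ∧ ∀ (K : Type) [Field K] [CharZero K]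
      (P : Fin s → Fin 2 → K), evP P F ≠ 0 →
        ∃ P' : Fin s → Fin 2 → K, CRel P P' i ∧ evP P' F' ≠ 0 := by
  obtain ⟨G, n, hG⟩ := subst i F'
  have hG0 : G ≠ 0 := by
    intro h0
    obtain ⟨K, _, _, P, hP⟩ := exists_generic s
    obtain ⟨P', hP', hr⟩ := exists_crel hP hi
    have hD := evP_ne hP (dR_ne hi)
    have h1 := hG K P hD
    rw [h0, map_zero] at h1
    have h2 := crel_unique hr (crp_crel P hi hD)
    rw [← h2] at h1
    exact mul_ne_zero (pow_ne_zero _ hD) (evP_ne hP' hF') h1.symm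
  refine ⟨dR i * G, mul_ne_zero (dR_ne hi) hG0, fun K _ _ P hP => ?_⟩
  rw [map_mul] at hP
  have hD := left_ne_zero_of_mul hP
  refine ⟨crp i P, crp_crel P hi hD, fun h0 => ?_⟩
  have h1 := hG K P hD
  rw [h0, mul_zero] at h1
  exact right_ne_zero_of_mul hP h1

theorem exists_third {r : ℕ} (a b : Fin (r + 4)) : ∃ c, c ≠ a ∧ c ≠ b := by
  by_contra hcon
  push Not at hcon
  have h0 := hcon ⟨0, by omega⟩
  have h1 := hcon ⟨1, by omega⟩
  have h2 := hcon ⟨2, by omega⟩
  by_cases c0 : (⟨0, by omega⟩ : Fin (r + 4)) = a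
  · have c1 : (⟨1, by omega⟩ : Fin (r + 4)) ≠ a := by
      rw [← c0]
      intro h
      have := congrArg Fin.val h
      simp at this
    have c2 : (⟨2, by omega⟩ : Fin (r + 4)) ≠ a := by
      rw [← c0]
      intro h
      have := congrArg Fin.val h
      simp at this
    have e1 := h1 c1
    have e2 := h2 c2
    rw [← e1] at e2
    have := congrArg Fin.val e2
    simp at this
  · have e0 := h0 c0
    by_cases c1 : (⟨1, by omega⟩ : Fin (r + 4)) = a
    · have c2 : (⟨2, by omega⟩ : Fin (r + 4)) ≠ a := by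
        rw [← c1]
        intro h
        have := congrArg Fin.val h
        simp at this
      have e2 := h2 c2
      rw [← e0] at e2
      have := congrArg Fin.val e2
      simp at this
    · have e1 := h1 c1
      rw [← e0] at e1
      have := congrArg Fin.val e1
      simp at this

theorem inj_cons {s : ℕ} {a b c : Fin s} (h1 : a ≠ b) (h2 : a ≠ c) (h3 : b ≠ c) :
    Function.Injective ![a, b, c] := by
  intro x y hxy
  fin_cases x <;> fin_cases y <;>
    simp [h1, h2, h3, h1.symm, h2.symm, h3.symm] at hxy ⊢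

/-- The line through two points, when no three points are collinear. -/
theorem exc_line' {K : Type} [Field K] {s : ℕ} {P : Fin s → Fin 2 → K}
    (hP : Function.Injective P)
    (h3 : ∀ i : Fin 3 → Fin s, Function.Injective i → (mat3 P i).det ≠ 0)
    {i j : Fin s} (hij : i ≠ j) :
    Exc P (ln (P i) (P j)) 1 (fun l => if l = i ∨ l = j then 1 else 0) := by
  classical
  have hab : P i ≠ P j := fun h => hij (hP h)
  have hs : ∑ l, (if l = i ∨ l = j then 1 else 0) = 2 := by
    have := sum_two hij (fun _ => 1)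
    simpa using this
  refine ⟨ln_irr hab, ln_hom _ _, fun l => ?_, ?_, ?_⟩
  · by_cases h : l = i ∨ l = j
    · rw [if_pos h]
      refine ⟨?_, fun h2 => line_mult (ln_ne hab) (ln_hom _ _) h2⟩
      rcases h with h | h
      · rw [h]; exact ln_left _ _
      · rw [h]; exact ln_right _ _
    · rw [if_neg h]
      refine ⟨van_zero _ _, fun h2 => ?_⟩
      push Not at h
      have hinj : Function.Injective ![i, j, l] := inj_cons hij h.1.symm h.2.symm
      have hdet := h3 _ hinj
      have h4 : ∀ k, Van (aff (P (![i, j, l] k))) 1 (ln (P i) (P j)) := by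
        intro k
        fin_cases k
        · exact ln_left _ _
        · exact ln_right _ _
        · exact h2
      have h5 : (mat3 P ![i, j, l]).transpose.mulVec
          (fun l => (ln (P i) (P j)).coeff (Finsupp.single l 1)) = 0 := by
        funext k
        have h6 := h4 k
        rw [van_one, eval_lin (ln_hom _ _)] at h6
        have h7 : (mat3 P ![i, j, l]).transpose.mulVec
            (fun l => (ln (P i) (P j)).coeff (Finsupp.single l 1)) k =
            ∑ x, aff (P (![i, j, l] k)) x * (ln (P i) (P j)).coeff (Finsupp.single x 1) := rfl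
        rw [Pi.zero_apply, ← h6, h7]
        exact Finset.sum_congr rfl fun l _ => mul_comm _ _
      have h8 : (fun l => (ln (P i) (P j)).coeff (Finsupp.single l 1)) = 0 := by
        refine Matrix.eq_zero_of_mulVec_eq_zero (M := (mat3 P ![i, j, l]).transpose) ?_ h5
        rw [Matrix.det_transpose]
        exact hdet
      refine ln_ne hab ?_
      rw [lin_form (ln_hom (P i) (P j))]
      refine Finset.sum_eq_zero fun l _ => ?_
      rw [show (ln (P i) (P j)).coeff (Finsupp.single l 1) = 0 from congrFun h8 l, map_zero,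
        zero_mul]
  · have h1 : ∀ l, (if l = i ∨ l = j then 1 else 0) ^ 2 = (if l = i ∨ l = j then 1 else 0) := by
      intro l
      split_ifs <;> norm_num
    rw [Finset.sum_congr rfl fun l _ => h1 l, hs]
    norm_num
  · rw [hs]

theorem inj_of_det {K : Type} [Field K] {r : ℕ} {P : Fin (r + 4) → Fin 2 → K}
    (h3 : ∀ i : Fin 3 → Fin (r + 4), Function.Injective i → (mat3 P i).det ≠ 0) :
    Function.Injective P := by
  intro a b hab
  by_contra hne
  obtain ⟨c, hca, hcb⟩ := exists_third a b
  apply h3 ![a, b, c] (inj_cons hne hca.symm hcb.symm)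
  refine Matrix.det_zero_of_column_eq (i := 0) (j := 1) (by decide) fun k => ?_
  show aff (P a) k = aff (P b) k
  rw [hab]

/-- A `(-1)`-curve at generic points gives one at general points. -/
theorem exc_spread {r : ℕ} : ∀ (e : ℕ) (u : Fin (r + 4) → ℕ),
    (∃ (K : Type) (_ : Field K) (_ : CharZero K) (P : Fin (r + 4) → Fin 2 → K)
      (C : MvPolynomial (Fin 3) K),
      AlgebraicIndependent ℚ (fun ij : Fin (r + 4) × Fin 2 => P ij.1 ij.2) ∧ Exc P C e u) →
    ∃ F : MvPolynomial (Fin (r + 4) × Fin 2) ℚ, F ≠ 0 ∧ ∀ (K : Type) [Field K] [CharZero K]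
      (P : Fin (r + 4) → Fin 2 → K), evP P F ≠ 0 → ∃ C, Exc P C e u := by
  classical
  intro e
  induction e using Nat.strong_induction_on with
  | _ e ih =>
    rintro u ⟨K, _, _, P, C, hP, hC⟩
    have he := deg_pos hC.irr hC.hom
    rcases Nat.lt_or_ge e 2 with he2 | he2
    · -- lines
      have he1 : e = 1 := by omega
      subst he1
      have hsum : ∑ j, u j = 2 := by
        have := hC.can
        omega
      have hle : ∀ j, u j ≤ 1 := fun j => van_le hC.irr.ne_zero hC.hom (hC.ord j).1
      have hex : ∃ a, 1 ≤ u a := by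
        by_contra hcon
        push Not at hcon
        have : ∑ j, u j = 0 := Finset.sum_eq_zero fun j _ => by
          have := hcon j
          omega
        omega
      obtain ⟨a, ha⟩ := hex
      have hex2 : ∃ b, b ≠ a ∧ 1 ≤ u b := by
        by_contra hcon
        push Not at hcon
        have h1 : ∑ j, u j = u a := by
          refine Finset.sum_eq_single a (fun b _ hb => ?_) (fun h => absurd (Finset.mem_univ a) h)
          have := hcon b hb
          omega
        have := hle a
        omega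
      obtain ⟨b, hba, hb⟩ := hex2
      obtain ⟨ua, ub, uz⟩ := two_of_sum hba.symm hsum ha hb
      have hu : u = fun l => if l = a ∨ l = b then 1 else 0 := by
        funext l
        by_cases h : l = a ∨ l = b
        · rw [if_pos h]
          rcases h with h | h
          · rw [h, ua]
          · rw [h, ub]
        · rw [if_neg h]
          push Not at h
          exact uz l h.1 h.2
      refine ⟨∏ i ∈ Finset.univ.filter (fun i : Fin 3 → Fin (r + 4) => Function.Injective i),
        (mR i).det, ?_, ?_⟩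
      · refine Finset.prod_ne_zero_iff.2 fun i hi => ?_
        rw [Finset.mem_filter] at hi
        intro h0
        obtain ⟨P', hP', hr⟩ := exists_crel hP hi.2
        have h1 := mR_det P i
        rw [h0, map_zero] at h1
        exact hr.det h1.symm
      · intro K' _ _ P' hP'
        rw [map_prod] at hP'
        have h3 : ∀ i : Fin 3 → Fin (r + 4), Function.Injective i → (mat3 P' i).det ≠ 0 := by
          intro i hi
          rw [← mR_det]
          exact Finset.prod_ne_zero_iff.1 hP' i (Finset.mem_filter.2 ⟨Finset.mem_univ _, hi⟩)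
        refine ⟨ln (P' a) (P' b), ?_⟩
        rw [hu]
        exact exc_line' (inj_of_det h3) h3 hba.symm
    · -- a quadratic transformation
      have hnr : ¬ Reduced e u := by
        intro hred
        have h1 := red_nef hred hC
        have h2 := self_iff.1 hC.self
        omega
      unfold Reduced at hnr
      push Not at hnr
      obtain ⟨a, b, c, hab, hac, hbc, hlt⟩ := hnr
      obtain ⟨i, hi⟩ : ∃ i : Fin 3 → Fin (r + 4), i = ![a, b, c] := ⟨_, rfl⟩
      have hinj : Function.Injective i := by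
        rw [hi]
        exact inj_cons hab hac hbc
      have i0 : i 0 = a := by rw [hi]; rfl
      have i1 : i 1 = b := by rw [hi]; rfl
      have i2 : i 2 = c := by rw [hi]; rfl
      have hpair : ∀ x y : Fin (r + 4), x ≠ y → u x + u y ≤ e := by
        intro x y hxy
        rcases hC.pair (inj_of_alg hP) hxy with h | h
        · exact h
        · omega
      have p : PS i e u := by
        constructor
        · rw [i0, i1]; exact hpair _ _ hab
        · rw [i0, i2]; exact hpair _ _ hac
        · rw [i1, i2]; exact hpair _ _ hbc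
      obtain ⟨P', hP', hr⟩ := exists_crel hP hinj
      obtain ⟨C', hC'⟩ := hC.cr hr p
      have hcd : cd i e u < e := by
        unfold cd
        rw [i0, i1, i2]
        omega
      obtain ⟨F', hF', h'⟩ := ih _ hcd _ ⟨K, _, _, P', C', hP', hC'⟩
      obtain ⟨F, hF, h⟩ := crel_gen hinj hF'
      refine ⟨F, hF, fun K1 _ _ P1 hP1 => ?_⟩
      obtain ⟨P1', hr1, hP1'⟩ := h K1 P1 hP1
      obtain ⟨C1, hC1⟩ := h' K1 P1' hP1'
      obtain ⟨C2, hC2⟩ := hC1.cr hr1.symm (p.cr hinj)
      rw [cd_cr hinj p, wcr_cr hinj p] at hC2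
      exact ⟨C2, hC2⟩

end Pool.Agent.K7.H33.SH
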